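import Pool.Agent.Q263.IC.Def
import Pool.Agent.Y832.CO.LB

/-!
# The hyperbolic splitting of a linear automorphism without bounded orbits

Job IC-SPLIT of the project IC (helper263).  The proof uses the uniform lower bound
`Pool.Agent.Y832.CO.LB.main` (helper832).
-/

set_option autoImplicit false
set_option linter.unusedSectionVars false

open Filter Topology Set

namespace Q121.IC

open Pool.Agent.Y504.CO

section

variable {W : Type} [NormedAddCommGroup W] [NormedSpace ℝ W] [FiniteDimensional ℝ W]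

theorem lb (A : W →L[ℝ] W) (h : NoBdd (fun _ => A)) : ∃ c : ℝ, 0 < c ∧ ∀ v : ℤ → W,
    (∃ C : ℝ, ∀ i, ‖v i‖ ≤ C) → ∀ δ : ℝ, (∀ i, ‖v (i + 1) - A (v i)‖ ≤ δ) →
    ∀ i, c * ‖v i‖ ≤ δ := by
  obtain ⟨c, hc, N₀, H⟩ := Pool.Agent.Y832.CO.LB.main W (fun _ => A) A tendsto_const_nhds
    tendsto_const_nhds h h
  exact ⟨c, hc, fun v hv δ hδ i => H N₀ le_rfl ∅ (fun _ => A) (fun _ _ => rfl)
    (fun i s hs => absurd hs (Set.notMem_empty s)) v hv δ hδ i⟩

/-- The vectors with a bounded forward orbit. -/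
def S (A : W →L[ℝ] W) : Submodule ℝ W where
  carrier := {v | ∃ C : ℝ, ∀ k : ℕ, ‖(A ^ k) v‖ ≤ C}
  zero_mem' := ⟨0, by simp⟩
  add_mem' := by
    rintro x y ⟨C, hC⟩ ⟨D, hD⟩
    exact ⟨C + D, fun k => by
      rw [map_add]; exact (norm_add_le _ _).trans (add_le_add (hC k) (hD k))⟩
  smul_mem' := by
    rintro t x ⟨C, hC⟩
    exact ⟨‖t‖ * C, fun k => by
      rw [map_smul, norm_smul]; exact mul_le_mul_of_nonneg_left (hC k) (norm_nonneg _)⟩

theorem mem_S {A : W →L[ℝ] W} {v : W} : v ∈ S A ↔ ∃ C : ℝ, ∀ k : ℕ, ‖(A ^ k) v‖ ≤ C := Iff.rfl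

theorem pow_apply_succ (A : W →L[ℝ] W) (k : ℕ) (v : W) : (A ^ (k + 1)) v = A ((A ^ k) v) := by
  rw [pow_succ']; rfl

theorem pow_apply_succ' (A : W →L[ℝ] W) (k : ℕ) (v : W) : (A ^ (k + 1)) v = (A ^ k) (A v) := by
  rw [pow_succ]; rfl

theorem pow_mem {A : W →L[ℝ] W} {v : W} (hv : v ∈ S A) (j : ℕ) : (A ^ j) v ∈ S A := by
  obtain ⟨C, hC⟩ := hv
  refine ⟨C, fun k => ?_⟩
  have : (A ^ k) ((A ^ j) v) = (A ^ (k + j)) v := by rw [pow_add]; rfl
  rw [this]
  exact hC _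

theorem rate (A : W →L[ℝ] W) (h : NoBdd (fun _ => A)) : ∃ C a : ℝ, 0 ≤ C ∧ 0 < a ∧ a < 1 ∧
    ∀ k : ℕ, ∀ v ∈ S A, ‖(A ^ k) v‖ ≤ C * a ^ k * ‖v‖ := by
  obtain ⟨c, hc, H⟩ := lb A h
  obtain ⟨M, hM0, hM⟩ : ∃ M : ℝ, 0 ≤ M ∧ ∀ k, ∀ v ∈ S A, ‖(A ^ k) v‖ ≤ M * ‖v‖ := by
    obtain ⟨M, hM⟩ := banach_steinhaus (g := fun k : ℕ => (A ^ k).comp (S A).subtypeL)
      (fun x => x.2)
    exact ⟨M, (norm_nonneg _).trans (hM 0),
      fun k v hv => ((A ^ k).comp (S A).subtypeL).le_of_opNorm_le (hM k) ⟨v, hv⟩⟩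
  have key : ∀ n : ℕ, 1 ≤ n → ∀ v ∈ S A, c * ‖(A ^ n) v‖ ≤ M * ‖v‖ / n := by
    intro n hn v hv
    have hn0 : (0 : ℝ) < n := by exact_mod_cast hn
    have hφ0 : ∀ t : ℝ, 0 ≤ max 0 (min 1 t) := fun t => le_max_left _ _
    have hφ1 : ∀ t : ℝ, max 0 (min 1 t) ≤ 1 := fun t => max_le zero_le_one (min_le_left _ _)
    have hb : ∃ C : ℝ, ∀ i : ℤ,
        ‖(max 0 (min 1 ((i : ℝ) / n))) • (A ^ i.toNat) v‖ ≤ C := by
      refine ⟨M * ‖v‖, fun i => ?_⟩
      rw [norm_smul, Real.norm_eq_abs, abs_of_nonneg (hφ0 _)]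
      calc _ ≤ 1 * ‖(A ^ i.toNat) v‖ := mul_le_mul_of_nonneg_right (hφ1 _) (norm_nonneg _)
        _ ≤ _ := by rw [one_mul]; exact hM _ v hv
    have hd : ∀ i : ℤ, ‖(fun i : ℤ => (max 0 (min 1 ((i : ℝ) / n))) • (A ^ i.toNat) v) (i + 1) -
        A ((fun i : ℤ => (max 0 (min 1 ((i : ℝ) / n))) • (A ^ i.toNat) v) i)‖ ≤
        M * ‖v‖ / n := by
      intro i
      simp only [map_smul]
      rcases lt_or_ge i 0 with hi | hi
      · have h1 : max 0 (min 1 (((i + 1 : ℤ) : ℝ) / n)) = 0 := by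
          apply max_eq_left
          refine (min_le_right _ _).trans (div_nonpos_of_nonpos_of_nonneg ?_ hn0.le)
          exact_mod_cast (by omega : i + 1 ≤ 0)
        have h2 : max 0 (min 1 ((i : ℝ) / n)) = 0 := by
          apply max_eq_left
          refine (min_le_right _ _).trans (div_nonpos_of_nonpos_of_nonneg ?_ hn0.le)
          exact_mod_cast (by omega : i ≤ 0)
        rw [h1, h2, zero_smul, zero_smul, sub_zero, norm_zero]
        positivity
      · have h1 : (i + 1).toNat = i.toNat + 1 := by omega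
        rw [h1, ← pow_apply_succ, ← sub_smul, norm_smul, Real.norm_eq_abs]
        have h2 : |max 0 (min 1 (((i + 1 : ℤ) : ℝ) / n)) - max 0 (min 1 ((i : ℝ) / n))| ≤
            1 / n := by
          have h3 : ((i + 1 : ℤ) : ℝ) / n - (i : ℝ) / n = 1 / n := by push_cast; ring
          have h4 := abs_max_sub_max_le_abs (min 1 (((i + 1 : ℤ) : ℝ) / n))
            (min 1 ((i : ℝ) / n)) 0
          rw [max_comm _ (0 : ℝ), max_comm _ (0 : ℝ)] at h4
          have h5 : |min 1 (((i + 1 : ℤ) : ℝ) / n) - min 1 ((i : ℝ) / n)| ≤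
              |((i + 1 : ℤ) : ℝ) / n - (i : ℝ) / n| := by
            have := abs_min_sub_min_le_max (1 : ℝ) (((i + 1 : ℤ) : ℝ) / n) 1 ((i : ℝ) / n)
            rwa [sub_self, abs_zero, max_eq_right (abs_nonneg _)] at this
          have h6 : |1 / (n : ℝ)| = 1 / n := abs_of_pos (by positivity)
          rw [h3, h6] at h5
          exact h4.trans h5
        calc _ ≤ 1 / (n : ℝ) * (M * ‖v‖) :=
              mul_le_mul h2 (hM _ v hv) (norm_nonneg _) (by positivity)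
          _ = _ := by ring
    have := H _ hb (M * ‖v‖ / n) hd (n : ℤ)
    simpa [div_self hn0.ne'] using this
  obtain ⟨N, hN⟩ := exists_nat_ge (2 * M / c + 1)
  have hN1 : 1 ≤ N := by
    have : (1 : ℝ) ≤ N := le_trans (by linarith [div_nonneg (mul_nonneg zero_le_two hM0) hc.le]) hN
    exact_mod_cast this
  have hN0 : (0 : ℝ) < N := by exact_mod_cast hN1
  have half : ∀ v ∈ S A, ‖(A ^ N) v‖ ≤ 1 / 2 * ‖v‖ := by
    intro v hv
    have h1 := key N hN1 v hv
    have h2 : M / (c * N) ≤ 1 / 2 := by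
      rw [div_le_div_iff₀ (by positivity) zero_lt_two]
      have : 2 * M / c ≤ N := by linarith
      rw [div_le_iff₀ hc] at this
      linarith
    calc ‖(A ^ N) v‖ = (c * ‖(A ^ N) v‖) / c := by field_simp
      _ ≤ (M * ‖v‖ / N) / c := by gcongr
      _ = M / (c * N) * ‖v‖ := by field_simp
      _ ≤ _ := mul_le_mul_of_nonneg_right h2 (norm_nonneg _)
  have halfm : ∀ m : ℕ, ∀ v ∈ S A, ‖(A ^ (N * m)) v‖ ≤ (1 / 2) ^ m * ‖v‖ := by
    intro m
    induction m with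
    | zero => intro v _; simp
    | succ m ih =>
      intro v hv
      have e : (A ^ (N * (m + 1))) v = (A ^ N) ((A ^ (N * m)) v) := by
        rw [Nat.mul_succ, add_comm, pow_add]; rfl
      rw [e]
      calc _ ≤ 1 / 2 * ‖(A ^ (N * m)) v‖ := half _ (pow_mem hv _)
        _ ≤ 1 / 2 * ((1 / 2) ^ m * ‖v‖) := by gcongr; exact ih v hv
        _ = _ := by ring
  set a : ℝ := (1 / 2 : ℝ) ^ (1 / (N : ℝ)) with ha
  have ha0 : 0 < a := Real.rpow_pos_of_pos (by norm_num) _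
  have ha1 : a < 1 := Real.rpow_lt_one (by norm_num) (by norm_num) (by positivity)
  have haN : a ^ N = 1 / 2 := by
    rw [ha, ← Real.rpow_natCast, ← Real.rpow_mul (by norm_num), one_div_mul_cancel hN0.ne',
      Real.rpow_one]
  refine ⟨2 * M, a, by positivity, ha0, ha1, fun k v hv => ?_⟩
  have hk : N * (k / N) + k % N = k := Nat.div_add_mod k N
  have e : (A ^ k) v = (A ^ (k % N)) ((A ^ (N * (k / N))) v) := by
    conv_lhs => rw [← hk, add_comm, pow_add]
    rfl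
  have h3 : (1 / 2 : ℝ) ^ (k / N) ≤ 2 * a ^ k := by
    have h4 : (1 / 2 : ℝ) ^ (k / N) = a ^ (N * (k / N)) := by rw [pow_mul, haN]
    have h5 : a ^ k = a ^ (N * (k / N)) * a ^ (k % N) := by rw [← pow_add, hk]
    have h6 : (1 / 2 : ℝ) ≤ a ^ (k % N) := by
      rw [← haN]
      exact pow_le_pow_of_le_one ha0.le ha1.le (Nat.mod_lt _ hN1).le
    rw [h4, h5]
    nlinarith [pow_pos ha0 (N * (k / N))]
  rw [e]
  calc _ ≤ M * ‖(A ^ (N * (k / N))) v‖ := hM _ _ (pow_mem hv _)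
    _ ≤ M * ((1 / 2) ^ (k / N) * ‖v‖) := by gcongr; exact halfm _ v hv
    _ ≤ M * ((2 * a ^ k) * ‖v‖) := by gcongr
    _ = _ := by ring

/-- The bound for the orbit segment of length `q`. -/
theorem seg {A : W →L[ℝ] W} {c : ℝ} (H : ∀ v : ℤ → W,
    (∃ C : ℝ, ∀ i, ‖v i‖ ≤ C) → ∀ δ : ℝ, (∀ i, ‖v (i + 1) - A (v i)‖ ≤ δ) →
    ∀ i, c * ‖v i‖ ≤ δ) (q : ℕ) (u : W) (j : ℕ) (hj : j < q) :
    c * ‖(A ^ j) u‖ ≤ ‖u - (A ^ q) u‖ := by
  have hq : (0 : ℤ) < q := by omega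
  have hb : ∃ C : ℝ, ∀ i : ℤ, ‖(A ^ (i % q).toNat) u‖ ≤ C := by
    refine ⟨∑ t ∈ Finset.range q, ‖(A ^ t) u‖, fun i => ?_⟩
    have h1 : (i % q).toNat ∈ Finset.range q := by
      rw [Finset.mem_range]
      have := Int.emod_lt_of_pos i hq
      have := Int.emod_nonneg i hq.ne'
      omega
    exact Finset.single_le_sum (f := fun t => ‖(A ^ t) u‖) (fun _ _ => norm_nonneg _) h1
  have hd : ∀ i : ℤ, ‖(fun i : ℤ => (A ^ (i % q).toNat) u) (i + 1) -
      A ((fun i : ℤ => (A ^ (i % q).toNat) u) i)‖ ≤ ‖u - (A ^ q) u‖ := by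
    intro i
    have h1 := Int.emod_lt_of_pos i hq
    have h0 := Int.emod_nonneg i hq.ne'
    simp only
    rw [← pow_apply_succ]
    rcases eq_or_ne (i % q + 1) q with hi | hi
    · have h2 : (i + 1) % q = 0 := by
        rw [← Int.emod_add_emod, hi, Int.emod_self]
      have h3 : (i % q).toNat + 1 = q := by omega
      rw [h2, h3]
      simp
    · have h2 : (i + 1) % q = i % q + 1 := by
        rw [← Int.emod_add_emod]
        exact Int.emod_eq_of_lt (by omega) (by omega)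
      have h3 : (i % q + 1).toNat = (i % q).toNat + 1 := by omega
      rw [h2, h3, sub_self, norm_zero]
      exact norm_nonneg _
  have := H _ hb _ hd (j : ℤ)
  have h1 : (j : ℤ) % q = j := Int.emod_eq_of_lt (by omega) (by omega)
  simpa [h1] using this

theorem cancel (A : W ≃L[ℝ] W) (j : ℕ) (x : W) :
    ((A.symm : W →L[ℝ] W) ^ j) (((A : W →L[ℝ] W) ^ j) x) = x := by
  induction j with
  | zero => simp
  | succ j ih =>
    rw [pow_apply_succ', pow_apply_succ]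
    simpa using ih

theorem sup_top (A : W ≃L[ℝ] W) (h : NoBdd (fun _ => (A : W →L[ℝ] W))) :
    S (A : W →L[ℝ] W) ⊔ S (A.symm : W →L[ℝ] W) = ⊤ := by
  obtain ⟨c, hc, H⟩ := lb _ h
  rw [eq_top_iff]
  intro w _
  set B : W →L[ℝ] W := (A : W →L[ℝ] W) with hB
  set B' : W →L[ℝ] W := (A.symm : W →L[ℝ] W) with hB'
  have hex : ∀ n : ℕ, ∃ u : W, u - (B ^ (n + 1)) u = w := by
    intro n
    have hinj : Function.Injective ((LinearMap.id : W →ₗ[ℝ] W) - ((B ^ (n + 1) : W →L[ℝ] W) :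
        W →ₗ[ℝ] W)) := by
      rw [← LinearMap.ker_eq_bot, LinearMap.ker_eq_bot']
      intro u hu
      have h1 : u - (B ^ (n + 1)) u = 0 := hu
      have h2 := seg H (n + 1) u 0 (Nat.succ_pos n)
      rw [h1, norm_zero] at h2
      have h3 : ‖(B ^ 0) u‖ ≤ 0 := by
        by_contra hcon
        push Not at hcon
        exact absurd h2 (not_le.mpr (mul_pos hc hcon))
      simpa using h3
    obtain ⟨u, hu⟩ := LinearMap.injective_iff_surjective.1 hinj w
    exact ⟨u, hu⟩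
  choose u hu using hex
  have hR : ∀ n j : ℕ, j ≤ n → ‖(B ^ j) (u n)‖ ≤ ‖w‖ / c := by
    intro n j hj
    rw [le_div_iff₀ hc, mul_comm]
    have := seg H (n + 1) (u n) j (by omega)
    rwa [hu n] at this
  have hmem : ∀ n, u n ∈ Metric.closedBall (0 : W) (‖w‖ / c) := by
    intro n
    rw [mem_closedBall_zero_iff]
    simpa using hR n 0 (Nat.zero_le _)
  have : ProperSpace W := FiniteDimensional.proper_real W
  obtain ⟨x, _, φ, hφ, hlim⟩ := (isCompact_closedBall (0 : W) (‖w‖ / c)).tendsto_subseq hmem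
  rw [Submodule.mem_sup]
  refine ⟨x, ⟨‖w‖ / c, fun k => ?_⟩, w - x, ⟨max ‖w - x‖ (‖w‖ / c), fun k => ?_⟩, by abel⟩
  · have h1 : Tendsto (fun n => ‖(B ^ k) (u (φ n))‖) atTop (𝓝 ‖(B ^ k) x‖) :=
      (((B ^ k).continuous.tendsto x).comp hlim).norm
    refine le_of_tendsto h1 ?_
    filter_upwards [eventually_ge_atTop k] with n hn
    exact hR _ _ (hn.trans (hφ.id_le n))
  · rcases k with _ | k
    · simp
    · have h1 : Tendsto (fun n => ‖(B' ^ (k + 1)) (w - u (φ n))‖) atTop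
          (𝓝 ‖(B' ^ (k + 1)) (w - x)‖) :=
        (((B' ^ (k + 1)).continuous.tendsto (w - x)).comp (tendsto_const_nhds.sub hlim)).norm
      refine (le_of_tendsto h1 ?_).trans (le_max_right _ _)
      filter_upwards [eventually_ge_atTop k] with n hn
      have hkn : k ≤ φ n := hn.trans (hφ.id_le n)
      have h2 : w - u (φ n) = - (B ^ (φ n + 1)) (u (φ n)) := by
        have := hu (φ n)
        rw [← this]
        abel
      have h3 : (B ^ (φ n + 1)) (u (φ n)) = (B ^ (k + 1)) ((B ^ (φ n - k)) (u (φ n))) := by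
        have e : φ n + 1 = (k + 1) + (φ n - k) := by omega
        rw [e, pow_add]
        rfl
      rw [h2, map_neg, norm_neg, h3, cancel]
      exact hR _ _ (Nat.sub_le _ _)

theorem inf_bot (A : W ≃L[ℝ] W) (h : NoBdd (fun _ => (A : W →L[ℝ] W))) :
    S (A : W →L[ℝ] W) ⊓ S (A.symm : W →L[ℝ] W) = ⊥ := by
  rw [eq_bot_iff]
  rintro v ⟨⟨C, hC⟩, ⟨D, hD⟩⟩
  set B : W →L[ℝ] W := (A : W →L[ℝ] W) with hB
  set B' : W →L[ℝ] W := (A.symm : W →L[ℝ] W) with hB'
  let s : ℤ → W := fun i => match i with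
    | Int.ofNat k => (B ^ k) v
    | Int.negSucc k => (B' ^ (k + 1)) v
  have h1 : ∃ C : ℝ, ∀ i, ‖s i‖ ≤ C := by
    refine ⟨max C D, fun i => ?_⟩
    rcases i with k | k
    · exact (hC k).trans (le_max_left _ _)
    · exact (hD (k + 1)).trans (le_max_right _ _)
  have h2 : ∀ i, s (i + 1) = B (s i) := by
    intro i
    rcases i with k | k
    · exact pow_apply_succ B k v
    · rcases k with _ | k
      · change (B ^ 0) v = B ((B' ^ 1) v)
        rw [pow_zero, pow_one]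
        simp [hB, hB']
      · change (B' ^ (k + 1)) v = B ((B' ^ (k + 1 + 1)) v)
        rw [pow_apply_succ B' (k + 1)]
        simp [hB, hB']
  have h3 := h s h1 h2 0
  have h4 : s 0 = v := by
    change (B ^ 0) v = v
    simp
  rw [h4] at h3
  exact h3

theorem noBdd_symm (A : W ≃L[ℝ] W) (h : NoBdd (fun _ => (A : W →L[ℝ] W))) :
    NoBdd (fun _ => (A.symm : W →L[ℝ] W)) := by
  rintro v ⟨C, hC⟩ hv i
  have h1 := h (fun j => v (-j)) ⟨C, fun j => hC _⟩ (fun j => ?_) (-i)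
  · simpa using h1
  · have h2 := hv (-(j + 1))
    have h3 : -(j + 1) + 1 = -j := by ring
    rw [h3] at h2
    simp only
    rw [h2]
    simp

theorem inv_S (A : W →L[ℝ] W) (v : W) : v ∈ S A ↔ A v ∈ S A := by
  constructor
  · intro hv
    simpa using pow_mem hv 1
  · rintro ⟨C, hC⟩
    refine ⟨max ‖v‖ C, fun k => ?_⟩
    rcases k with _ | k
    · simp
    · rw [pow_apply_succ']
      exact (hC k).trans (le_max_right _ _)

theorem inv_S_symm (A : W ≃L[ℝ] W) (v : W) :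
    v ∈ S (A.symm : W →L[ℝ] W) ↔ A v ∈ S (A.symm : W →L[ℝ] W) := by
  rw [inv_S (A.symm : W →L[ℝ] W) (A v)]
  simp

theorem iter (A : W ≃L[ℝ] W) (k : ℕ) (v : W) : (⇑A)^[k] v = ((A : W →L[ℝ] W) ^ k) v := by
  induction k with
  | zero => simp
  | succ k ih => rw [Function.iterate_succ_apply', ih, pow_apply_succ]; rfl

end

/-- **SPLIT**: the hyperbolic splitting of a linear automorphism without bounded orbits. -/
theorem split : Q263.IC.S_SPLIT := by
  intro W _ _ _ A h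
  obtain ⟨C, a, hC, ha0, ha1, H⟩ := rate _ h
  obtain ⟨D, b, hD, hb0, hb1, K⟩ := rate _ (noBdd_symm A h)
  refine ⟨S (A : W →L[ℝ] W), S (A.symm : W →L[ℝ] W), max C D, max a b,
    ⟨disjoint_iff.2 (inf_bot A h), codisjoint_iff.2 (sup_top A h)⟩, lt_max_of_lt_left ha0,
    max_lt ha1 hb1, fun v => inv_S _ v, fun v => inv_S_symm A v, fun k v hv => ?_,
    fun k v hv => ?_⟩
  · rw [iter]
    refine (H k v hv).trans (mul_le_mul_of_nonneg_right ?_ (norm_nonneg _))
    exact mul_le_mul (le_max_left _ _) (pow_le_pow_left₀ ha0.le (le_max_left _ _) k)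
      (pow_nonneg ha0.le _) (hC.trans (le_max_left _ _))
  · rw [iter]
    refine (K k v hv).trans (mul_le_mul_of_nonneg_right ?_ (norm_nonneg _))
    exact mul_le_mul (le_max_right _ _) (pow_le_pow_left₀ hb0.le (le_max_right _ _) k)
      (pow_nonneg hb0.le _) (hC.trans (le_max_left _ _))

end Q121.IC
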